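import Pool.Agent.H73.PHS.Stmts

/-!
# Board PHS, row SMT: smooth domains with disconnected complement have a hole
-/

set_option autoImplicit false

open Set Filter Topology MeasureTheory Metric

namespace Pool.PHS

/-- Row `SMT`: smooth domains with disconnected complement have a hole. -/
theorem SMT_thm (hCBC : CBCStmt) (hLCB : LCBStmt) (hIPB : IPBStmt) : SMTStmt := by
  intro n hn ρ hρ hdρ hb hc hnp
  have hcont : Continuous ρ := hρ.continuous
  have hXc : IsClosed {z : Cn n | 0 ≤ ρ z} := isClosed_le continuous_const hcont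
  obtain ⟨R, hR⟩ := hb.subset_closedBall (0 : Cn n)
  have hR' : ∀ z : Cn n, ρ z < 0 → ‖z‖ ≤ R := fun z hz => by
    have := hR hz
    simpa [mem_closedBall, dist_zero_right] using this
  have hbig : {z : Cn n | R < ‖z‖} ⊆ {z : Cn n | 0 ≤ ρ z} := by
    intro z hz
    by_contra h
    have h1 : ρ z < 0 := not_le.1 h
    exact absurd (hR' z h1) (not_le.2 hz)
  have : Nonempty (Fin n) := ⟨⟨0, hn⟩⟩
  obtain ⟨x₀, hx₀⟩ : ∃ x₀ : Cn n, R < ‖x₀‖ := by
    refine ⟨fun _ => ((|R| + 1 : ℝ) : ℂ), ?_⟩
    rw [pi_norm_const]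
    rw [Complex.norm_real, Real.norm_eq_abs, abs_of_pos (by positivity)]
    linarith [le_abs_self R]
  set X : Set (Cn n) := {z : Cn n | 0 ≤ ρ z} with hX
  set E : Set (Cn n) := connectedComponentIn X x₀ with hE
  have hx₀X : x₀ ∈ X := hbig hx₀
  have hEX : E ⊆ X := connectedComponentIn_subset X x₀
  have hx₀E : x₀ ∈ E := mem_connectedComponentIn hx₀X
  have hEp : IsPreconnected E := isPreconnected_connectedComponentIn
  have hbigE : {z : Cn n | R < ‖z‖} ⊆ E :=
    (hCBC n hn R).subset_connectedComponentIn hx₀ hbig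
  have hEc : IsClosed E := by
    have h1 : closure E ⊆ X := closure_minimal hEX hXc
    have h2 : closure E ⊆ E :=
      hEp.closure.subset_connectedComponentIn (subset_closure hx₀E) h1
    exact isClosed_of_closure_subset h2
  have hloc : ∀ x ∈ E, ∃ δ > 0, ∀ y ∈ X, ‖y - x‖ < δ → y ∈ E := by
    intro x hx
    have hxe : connectedComponentIn X x₀ = connectedComponentIn X x := connectedComponentIn_eq hx
    have h0x : 0 ≤ ρ x := hEX hx
    rcases h0x.lt_or_eq with h | h
    · have ho : IsOpen {z : Cn n | 0 < ρ z} := isOpen_lt continuous_const hcont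
      obtain ⟨δ, hδ, hball⟩ := Metric.isOpen_iff.1 ho x h
      refine ⟨δ, hδ, fun y _ hyx => ?_⟩
      have hsub : ball x δ ⊆ X := fun z hz => by
        have h1 : 0 < ρ z := hball hz
        exact h1.le
      have h3 : ball x δ ⊆ connectedComponentIn X x :=
        (convex_ball x δ).isPreconnected.subset_connectedComponentIn (mem_ball_self hδ) hsub
      rw [hE, hxe]
      exact h3 (by rw [mem_ball, dist_eq_norm]; exact hyx)
    · obtain ⟨δ, hδ, C, hCp, hCX, hCm⟩ := hLCB n ρ x hρ h.symm (hdρ x h.symm)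
      refine ⟨δ, hδ, fun y hy hyx => ?_⟩
      have hxC : x ∈ C := hCm x (by simpa using hδ) (hEX hx)
      have h3 : C ⊆ connectedComponentIn X x := hCp.subset_connectedComponentIn hxC hCX
      rw [hE, hxe]
      exact h3 (hCm y hyx hy)
  refine ⟨E, X \ E, ?_⟩
  have hKc : IsClosed (X \ E) := by
    rw [← isSeqClosed_iff_isClosed]
    intro u x hu hux
    have hxX : x ∈ X := hXc.isSeqClosed (fun k => (hu k).1) hux
    refine ⟨hxX, fun hxE => ?_⟩
    obtain ⟨δ, hδ, hy⟩ := hloc x hxE
    have h1 : ∀ᶠ k in atTop, dist (u k) x < δ := (Metric.tendsto_nhds.1 hux) δ hδ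
    obtain ⟨k, hk⟩ := h1.exists
    rw [dist_eq_norm] at hk
    exact (hu k).2 (hy (u k) (hu k).1 hk)
  have hKb : Bornology.IsBounded (X \ E) := by
    refine (Metric.isBounded_closedBall (x := (0 : Cn n)) (r := R)).subset ?_
    intro z hz
    rw [mem_closedBall, dist_zero_right]
    by_contra h
    exact hz.2 (hbigE (not_le.1 h))
  have hKne : (X \ E).Nonempty := by
    by_contra h
    rw [Set.not_nonempty_iff_eq_empty, Set.sdiff_eq_empty] at h
    have hXE : X = E := Subset.antisymm h hEX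
    exact hnp (by rw [hXE]; exact hEp)
  obtain ⟨k', hk'K, hk'⟩ : ∃ k' ∈ X \ E, 0 < ρ k' := by
    obtain ⟨k, hk⟩ := hKne
    have h0k : 0 ≤ ρ k := hk.1
    rcases h0k.lt_or_eq with h | h
    · exact ⟨k, hk, h⟩
    · obtain ⟨δ, hδ, hball⟩ := Metric.isOpen_iff.1 hEc.isOpen_compl k hk.2
      obtain ⟨y, hy1, hy2⟩ := hIPB n ρ k hρ h.symm (hdρ k h.symm) δ hδ
      refine ⟨y, ⟨le_of_lt hy2, ?_⟩, hy2⟩
      exact hball (by rw [mem_ball, dist_eq_norm]; exact hy1)
  have hint : (interior (X \ E)).Nonempty := by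
    have ho : IsOpen ({z : Cn n | 0 < ρ z} ∩ Eᶜ) :=
      (isOpen_lt continuous_const hcont).inter hEc.isOpen_compl
    refine ⟨k', mem_interior.2 ⟨_, ?_, ho, ⟨hk', hk'K.2⟩⟩⟩
    intro z hz
    have h1 : 0 < ρ z := hz.1
    exact ⟨h1.le, hz.2⟩
  exact
    { open_D := isOpen_lt hcont continuous_const
      conn_D := hc
      bdd_D := hb
      closed_E := hEc
      conn_E := hEp
      comp_K := Metric.isCompact_of_isClosed_isBounded hKc hKb
      int_K := hint
      disj := Set.disjoint_sdiff_right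
      compl := by
        rw [Set.union_sdiff_cancel hEX]
        ext z
        simp [hX] }

end Pool.PHS
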